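import Pool.Agent.Helper12.GM.Stmts
import Pool.Agent.Helper12.GM.LibF

open scoped ENNReal UpperHalfPlane MatrixGroups Topology
open UpperHalfPlane Real Filter

namespace Pool.Agent.Helper12.GM

theorem st_NOJ : ST_NOJ := by
  intro Γ _ X κ K hκ hK x s hs hx hy
  have hd : dist (X.M x • (I : ℍ)) (X.M (x * s) • (I : ℍ)) = X.L s := by
    rw [X.dist_orbit, inv_mul_cancel_left]
  have hL0 := X.L_nonneg s
  have hc : Real.cosh (X.L s) ≤ Real.cosh K := by
    rw [Real.cosh_le_cosh, abs_of_nonneg hL0, abs_of_nonneg (hL0.trans hs)]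
    exact hs
  have hx' : (X.M x • (I : ℍ)).re < -κ * (X.M x • (I : ℍ)).im := hx
  have hy' : κ * (X.M (x * s) • (I : ℍ)).im < (X.M (x * s) • (I : ℍ)).re := hy
  generalize X.M x • (I : ℍ) = z at hd hx'
  generalize X.M (x * s) • (I : ℍ) = w at hd hy'
  have h1 := UpperHalfPlane.cosh_dist z w
  rw [hd] at h1
  have hz := z.im_pos
  have hw := w.im_pos
  have h2 : dist (z : ℂ) (w : ℂ) ^ 2 / (2 * z.im * w.im) ≤ 2 * κ ^ 2 := by linarith
  rw [div_le_iff₀ (by positivity)] at h2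
  have h3 : (w.re - z.re) ^ 2 ≤ dist (z : ℂ) (w : ℂ) ^ 2 := by
    rw [dist_comm, Complex.dist_eq]
    have := Complex.abs_re_le_norm ((w : ℂ) - z)
    rw [Complex.sub_re, UpperHalfPlane.coe_re, UpperHalfPlane.coe_re] at this
    rw [← sq_abs]
    exact pow_le_pow_left₀ (abs_nonneg _) this 2
  have h4 : 0 ≤ κ * (z.im + w.im) := by positivity
  have h5 : κ * (z.im + w.im) < w.re - z.re := by linarith
  have h6 : (κ * (z.im + w.im)) ^ 2 < (w.re - z.re) ^ 2 := pow_lt_pow_left₀ h5 h4 (by norm_num)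
  nlinarith [mul_nonneg (sq_nonneg κ) (sq_nonneg (z.im - w.im))]

end Pool.Agent.Helper12.GM
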